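import Pool.Agent.K9h12.SH.Han

/-!
Restriction of meromorphic functions to a neighbourhood of infinity, and functions which share
values with a function which is meromorphic at infinity.
-/

set_option autoImplicit false

open FF Polynomial Filter Metric Set Topology

namespace Pool.Agent.K9h12.NV

open Pool.Agent.W603.LV Pool.Agent.W602.GT Pool.Agent.W603.BP Pool.Agent.W601.PH
  Pool.Agent.W602.NC Pool.Agent.TH152.HY Pool.Agent.Y190.AN Pool.Agent.Y190.BV
  Pool.Agent.K9h12.AX Pool.Agent.K9h12.SH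

section

variable {D D' : Dm} (h : D'.U ⊆ D.U)

theorem MS_le (h : D'.U ⊆ D.U) : MS D ≤ MS D' := fun _ hf z hz => hf z (h hz)

/-- the restriction -/
noncomputable def res : MK D →ₐ[ℂ] MK D' :=
  Ideal.Quotient.liftₐ (MJ D) ((Ideal.Quotient.mkₐ ℂ (MJ D')).comp
    (Subalgebra.inclusion (MS_le h))) (fun f hf => by
      change Ideal.Quotient.mk (MJ D') _ = 0
      rw [Ideal.Quotient.eq_zero_iff_mem, mem_MJ]
      exact fun z hz => hf z (h hz))

theorem res_cl {f : ℂ → ℂ} (hf : MeromorphicOn f D.U) :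
    res h (cl f hf) = cl f (hf.mono_set h) := rfl

theorem ord_res {z : ℂ} (hz : z ∈ D'.U) (x : MK D) :
    (PL hz).ord (res h x) = (PL (h hz)).ord x := by
  obtain ⟨f, hf, rfl⟩ := cl_surj x
  rw [res_cl, PL_cl, PL_cl]

theorem ge_res {z : ℂ} (hz : z ∈ D'.U) {x : MK D} {n : ℤ} :
    Ge (PL hz) n (res h x) ↔ Ge (PL (h hz)) n x := by
  have e : res h x = 0 ↔ x = 0 := map_eq_zero_iff (res h) (res h).toRingHom.injective
  unfold Ge
  rw [ord_res, e]

theorem mder_res {x : MK D} (hx : MDer D x ≠ 0) : MDer D' (res h x) ≠ 0 := by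
  intro h0
  obtain ⟨c, hc⟩ := MDer_eq_zero h0
  apply hx
  have h1 : x = algebraMap ℂ (MK D) c := by
    apply (res h).toRingHom.injective
    change res h x = res h (algebraMap ℂ (MK D) c)
    rw [hc, AlgHom.commutes]
  rw [h1, Derivation.map_algebraMap]

end

/-- restrictions which are meromorphic at infinity -/
theorem mem_of_res {r : ℝ} (hr : 0 < r) (h1 : 1 ≤ r) {x : MK (exD 1 one_pos)}
    (hx : res (D := exD 1 one_pos) (D' := exD r hr) (Ext_mono h1) x ∈ Minf r hr) :
    x ∈ Minf 1 one_pos := by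
  obtain ⟨f, hf, rfl⟩ := cl_surj x
  obtain ⟨g, hg, hgx, hgi⟩ := hx
  rw [res_cl, cl_eq] at hgx
  refine mem_of_large (R := g) hgi (R0 := r) fun z hz => ?_
  filter_upwards [hgx z hz] with w hw
  exact hw.symm

/-- A function which is meromorphic at infinity has no zeros and no poles near infinity. -/
theorem ev_ord {x : MK (exD 1 one_pos)} (hx : x ∈ Minf 1 one_pos) (hx0 : x ≠ 0) :
    ∃ R : ℝ, 1 ≤ R ∧ ∀ (z : ℂ) (hz : z ∈ (exD 1 one_pos).U), R < ‖z‖ → (PL hz).ord x = 0 := by
  obtain ⟨f, hf, rfl, hfi⟩ := hx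
  have h1 : meromorphicOrderAt (fun w => f w⁻¹) 0 ≠ ⊤ := by
    intro h0
    rw [meromorphicOrderAt_eq_top_iff] at h0
    obtain ⟨δ, hδ, hb⟩ := Metric.mem_nhdsWithin_iff.1 h0
    obtain ⟨z1, hz1⟩ := Ext_nonempty (max 1 δ⁻¹)
    have hz1' : z1 ∈ (exD 1 one_pos).U := Ext_mono (le_max_left 1 δ⁻¹) hz1
    refine cl_ne_zero hx0 z1 hz1' ?_
    rw [meromorphicOrderAt_eq_top_iff]
    filter_upwards [nhdsWithin_le_nhds ((Ext_open _).mem_nhds hz1)] with w hw
    have hw1 : 1 < ‖w‖ := lt_of_le_of_lt (le_max_left _ _) hw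
    have hw2 : δ⁻¹ < ‖w‖ := lt_of_le_of_lt (le_max_right _ _) hw
    have hw0 : w ≠ 0 := by
      rintro rfl
      rw [norm_zero] at hw1
      linarith
    have h3 : w⁻¹ ∈ ball (0 : ℂ) δ ∩ {0}ᶜ := by
      refine ⟨?_, inv_ne_zero hw0⟩
      rw [mem_ball_zero_iff, norm_inv]
      exact inv_lt_of_inv_lt₀ hδ hw2
    have h4 := hb h3
    simpa using h4
  have h2 := (meromorphicOrderAt_ne_top_iff_eventually_ne_zero hfi).1 h1
  have h3 := hfi.eventually_analyticAt
  have h4 : ∀ᶠ w in 𝓝[≠] (0 : ℂ), f w⁻¹ ≠ 0 ∧ AnalyticAt ℂ (fun w => f w⁻¹) w := h2.and h3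
  obtain ⟨δ, hδ, hb⟩ := Metric.mem_nhdsWithin_iff.1 h4
  refine ⟨max 1 δ⁻¹, le_max_left _ _, fun z hz hzR => ?_⟩
  have hz1 : 1 < ‖z‖ := hz
  have hz2 : δ⁻¹ < ‖z‖ := lt_of_le_of_lt (le_max_right _ _) hzR
  have hz0 : z ≠ 0 := by
    rintro rfl
    rw [norm_zero] at hz1
    linarith
  have h5 : z⁻¹ ∈ ball (0 : ℂ) δ ∩ {0}ᶜ := by
    refine ⟨?_, inv_ne_zero hz0⟩
    rw [mem_ball_zero_iff, norm_inv]
    exact inv_lt_of_inv_lt₀ hδ hz2
  obtain ⟨h6, h7⟩ := hb h5
  rw [inv_inv] at h6
  have h8 : AnalyticAt ℂ f z := by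
    have h9 : AnalyticAt ℂ (fun w : ℂ => (fun w => f w⁻¹) w⁻¹) z :=
      AnalyticAt.comp (g := fun w => f w⁻¹) (f := fun w : ℂ => w⁻¹) h7 (analyticAt_inv hz0)
    simpa using h9
  have h10 : analyticOrderAt f z = ((0 : ℕ) : ℕ∞) := by
    rw [Nat.cast_zero, h8.analyticOrderAt_eq_zero]
    exact h6
  have := ord_cl (hg := hf) hz h8 h10
  exact_mod_cast this

/-- **Totally ramified values near infinity.** -/
theorem an_const' {r : ℝ} {hr : 0 < r} {B : ℂ[X]} (hB : B.Separable) (hq : 5 ≤ B.natDegree)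
    {y : MK (exD r hr)} (hy : MDer (exD r hr) y ≠ 0)
    (hst : ∀ (z : ℂ) (hz : z ∈ (exD r hr).U), Ge (PL hz) 0 y →
      (PL hz).ord (aeval y B) ≠ 1) : y ∈ Minf r hr := by
  classical
  have hB0 : B ≠ 0 := by rintro rfl; simp at hq
  have hc := const_of_eq hy
  have hy0 : y ≠ 0 := fun h0 => hc 0 (by rw [h0, map_zero])
  have hcard : B.roots.toFinset.card = B.natDegree := by
    rw [Multiset.toFinset_card_of_nodup (nodup_roots hB)]
    exact (IsAlgClosed.splits B).natDegree_eq_card_roots.symm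
  obtain ⟨b, hb⟩ : ∃ b : Fin (4 + 1) → ℂ, Function.Injective b ∧ ∀ i, b i ∈ B.roots.toFinset := by
    have h1 : Fintype.card (Fin (4 + 1)) ≤ Fintype.card B.roots.toFinset := by
      rw [Fintype.card_fin, Fintype.card_coe, hcard]
      exact hq
    obtain ⟨f⟩ := Function.Embedding.nonempty_of_card_le h1
    exact ⟨fun i => (f i : ℂ), fun i j h => f.injective (Subtype.ext h), fun i => (f i).2⟩
  have heval : ∀ e : ℂ, (X - C y : (MK (exD r hr))[X]).eval (algebraMap ℂ _ e) =
      algebraMap ℂ _ e - y := fun e => by simp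
  have hne : ∀ e : ℂ, algebraMap ℂ (MK (exD r hr)) e - y ≠ 0 := fun e h0 =>
    hc e (sub_eq_zero.1 h0).symm
  have h1 := ratios_Minf (r0 := r) (hr0 := hr) (R := X - C y) (d := 1) (natDegree_X_sub_C y)
    le_rfl (irreducible_X_sub_C y).squarefree (fun e => by rw [heval]; exact hne e) b hb.1
    (by norm_num) (fun z hz i => ?_) 1
  · rw [heval, heval] at h1
    have h2 : b 1 ≠ b 0 := fun h => absurd (hb.1 h) (by decide)
    have h3 : algebraMap ℂ (MK (exD r hr)) (b 1 - b 0) ≠ 0 :=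
      (_root_.map_ne_zero _).2 (sub_ne_zero.2 h2)
    have h4 : y = algebraMap ℂ (MK (exD r hr)) (b 0) -
        algebraMap ℂ (MK (exD r hr)) (b 1 - b 0) /
        ((algebraMap ℂ _ (b 1) - y) / (algebraMap ℂ _ (b 0) - y) - 1) := by
      have h5 := hne (b 0)
      have h6 : (algebraMap ℂ (MK (exD r hr)) (b 1) - y) /
          (algebraMap ℂ _ (b 0) - y) - 1 =
          algebraMap ℂ (MK (exD r hr)) (b 1 - b 0) / (algebraMap ℂ _ (b 0) - y) := by
        rw [map_sub]
        field_simp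
        ring
      rw [h6]
      field_simp
      ring
    rw [h4]
    exact sub_mem (algebraMap_mem _ _) (div_mem (algebraMap_mem _ _)
      (sub_mem h1 (one_mem _)))
  · -- the contacts
    unfold ct
    rw [heval]
    by_cases hreg : Ge (PL hz) 0 y
    · have hcnt : cnt (PL hz) (X - C y) = 0 := by
        refine cnt_unique _ (fun j => ?_) ⟨1, ?_, ?_⟩
        · rcases j with _ | _ | j
          · simp only [coeff_sub, coeff_X_zero, coeff_C_zero, zero_sub]
            exact hreg.neg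
          · simp only [zero_add, coeff_sub, coeff_X_one, coeff_C_succ, sub_zero]
            exact Ge.one
          · rw [coeff_eq_zero_of_natDegree_lt (by rw [natDegree_X_sub_C]; omega)]
            exact Ge.zero
        · simp
        · simp [FF.Place.ord_one]
      rw [hcnt, sub_zero]
      have hneg : algebraMap ℂ (MK (exD r hr)) (b i) - y =
          -(y - algebraMap ℂ (MK (exD r hr)) (b i)) := by ring
      rw [hneg, FF.Place.ord_neg]
      have hge : Ge (PL hz) 0 (y - algebraMap ℂ (MK (exD r hr)) (b i)) :=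
        hreg.sub (Ge.const _)
      have h0 := hge.resolve_left (sub_ne_zero.2 (hc _))
      rcases h0.eq_or_lt with h2 | h2
      · exact Or.inl h2.symm
      · right
        have h3 := ord_poly_fin (PL hz) hc hB0 (c := b i) rfl h2
        have h4 : B.rootMultiplicity (b i) = 1 := by
          have h5 : B.rootMultiplicity (b i) ≤ 1 := rootMultiplicity_le_one_of_separable hB _
          have h6 : 0 < B.rootMultiplicity (b i) := by
            rw [rootMultiplicity_pos hB0]
            exact isRoot_of_mem_roots (Multiset.mem_toFinset.1 (hb.2 i))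
          omega
        rw [h4, Nat.cast_one, one_mul] at h3
        have h5 := hst z hz hreg
        rw [h3] at h5
        omega
    · left
      have hx1 : (PL hz).ord y < 0 := by
        by_contra h1
        exact hreg (Or.inr (by omega))
      have hcnt : cnt (PL hz) (X - C y) = (PL hz).ord y := by
        refine cnt_unique _ (fun j => ?_) ⟨0, ?_, ?_⟩
        · rcases j with _ | _ | j
          · simp only [coeff_sub, coeff_X_zero, coeff_C_zero, zero_sub]
            exact (ge_ord _ y).neg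
          · simp only [zero_add, coeff_sub, coeff_X_one, coeff_C_succ, sub_zero]
            exact Ge.one.mono hx1.le
          · rw [coeff_eq_zero_of_natDegree_lt (by rw [natDegree_X_sub_C]; omega)]
            exact Ge.zero
        · simpa using hy0
        · simp [FF.Place.ord_neg]
      rw [hcnt]
      by_cases hb0 : b i = 0
      · rw [hb0, map_zero, zero_sub, FF.Place.ord_neg, sub_self]
      · have h2 := (PL hz).ord_add_eq (neg_ne_zero.2 hy0)
          ((_root_.map_ne_zero (algebraMap ℂ (MK (exD r hr)))).2 hb0) (by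
            rw [FF.Place.ord_neg, FF.Place.ord_const _ hb0]; exact hx1)
        have h3 : algebraMap ℂ (MK (exD r hr)) (b i) - y =
            -y + algebraMap ℂ (MK (exD r hr)) (b i) := by ring
        rw [h3, h2.2, FF.Place.ord_neg, sub_self]

/-- **Spreading.** -/
theorem spread {A B : ℂ[X]} (hB : B.Separable) (hq : 5 ≤ B.natDegree)
    {x y : MK (exD 1 one_pos)} (hx : x ∈ Minf 1 one_pos) (hxA : aeval x A ≠ 0)
    (hyB : aeval y B ≠ 0)
    (hst : ∀ (z : ℂ) (hz : z ∈ (exD 1 one_pos).U), Shr A B (PL hz) x y) :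
    y ∈ Minf 1 one_pos := by
  by_cases hy : MDer (exD 1 one_pos) y = 0
  · obtain ⟨d, hd⟩ := MDer_eq_zero hy
    rw [hd]
    exact algebraMap_mem _ _
  have hxA' : aeval x A ∈ Minf 1 one_pos := by
    have h1 : (aeval (⟨x, hx⟩ : Minf 1 one_pos) A : Minf 1 one_pos).1 = aeval x A := by
      exact (Polynomial.aeval_algHom_apply (Minf 1 one_pos).val (⟨x, hx⟩ : Minf 1 one_pos) A).symm
    rw [← h1]
    exact Subtype.mem _
  obtain ⟨R1, hR1, h1⟩ := ev_ord hxA' hxA
  obtain ⟨R2, hR2, h2⟩ : ∃ R : ℝ, 1 ≤ R ∧ ∀ (z : ℂ) (hz : z ∈ (exD 1 one_pos).U), R < ‖z‖ →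
      Ge (PL hz) 0 x := by
    by_cases hx0 : x = 0
    · exact ⟨1, le_rfl, fun z hz _ => Or.inl hx0⟩
    · obtain ⟨R, hR, h⟩ := ev_ord hx hx0
      exact ⟨R, hR, fun z hz hzR => Or.inr (h z hz hzR).ge⟩
  set r : ℝ := max R1 R2 with hr
  have hr1 : 1 ≤ r := hR1.trans (le_max_left _ _)
  have hr0 : 0 < r := lt_of_lt_of_le one_pos hr1
  refine mem_of_res hr0 hr1 (an_const' hB hq (mder_res _ hy) fun z hz hreg hone => ?_)
  rw [ge_res] at hreg
  rw [Polynomial.aeval_algHom_apply, ord_res] at hone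
  have hz' : z ∈ (exD 1 one_pos).U := Ext_mono hr1 hz
  refine hst z hz' (h2 z hz' (lt_of_le_of_lt (le_max_right _ _) hz)) hreg hxA hyB ?_
  rw [h1 z hz' (lt_of_le_of_lt (le_max_left _ _) hz), hone, zero_add]

end Pool.Agent.K9h12.NV
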