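import Pool.Agent.K9h12.NV.Bas
import Pool.Agent.K9h12.NV.Res
import Pool.Agent.K9h12.VG.High

/-!
Varieties of log general type and families of functions without simple contacts.
-/

set_option autoImplicit false

open FF Polynomial

namespace Pool.Agent.K9h12.NV

open Pool.Agent.W603.LV Pool.Agent.W602.GT Pool.Agent.K9h12.SH Pool.Agent.Y190.AN
  Pool.Agent.W603.BP Pool.Agent.W601.PH

variable {L : Type} [Field L] [Algebra ℂ L]

/-- **Total contact order.** -/
theorem high {d : ℕ} {A : Fin d → ℂ[X]} (hA : ∀ i, (A i).Separable)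
    (h5 : ∀ i, 5 ≤ (A i).natDegree) {x : Fin d → L} (hx : IsTranscendenceBasis ℂ x)
    {Bd : Place ℂ L → Prop} (hst : ∀ P, ¬ Bd P → (∀ i, Ge P 0 (x i)) →
      ∑ i, P.ord (aeval (x i) (A i)) ≠ 1) :
    LogGeneralType ℂ L d Bd := by
  classical
  have htr : ∀ j, Transcendental ℂ (x j) := fun j => hx.1.transcendental j
  have hc : ∀ j (c : ℂ), x j ≠ algebraMap ℂ L c := fun j c h => htr j (by
    rw [h]; exact isAlgebraic_algebraMap c)
  have hAx : ∀ j, aeval (x j) (A j) ≠ 0 := fun j h0 => htr j ⟨_, (hA j).ne_zero, h0⟩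
  have hx0 : ∀ j, x j ≠ 0 := fun j h0 => hc j 0 (by rw [h0, map_zero])
  let E : Fin (d + 1) → Fin d → ℕ := fun l i => if l = i.succ then 1 else 0
  have hE : ∀ l i, E l i ≤ 1 := fun l i => by
    simp only [E]
    split_ifs <;> omega
  let g : Fin (d + 1) → L := fun l => ∏ i, (x i ^ E l i / aeval (x i) (A i))
  have key : ∀ (P : Place ℂ L) (l : Fin (d + 1)), LogAt P (form x 2 (g l)) ∧
      (((∀ i, Ge P 0 (x i)) → ∑ i, P.ord (aeval (x i) (A i)) ≠ 1) →
        RegAt P (form x 2 (g l))) := by
    intro P l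
    choose α ν e h1 h2 h3 h4 using fun i => coord P (hA i) (i := E l i)
      (by have := hE l i; have := h5 i; omega) (hc i)
    have hne : ∀ i, x i - algebraMap ℂ L (α i) ≠ 0 := fun i => sub_ne_zero.2 (hc i _)
    have g1 : Ge P (∑ i, ν i) (∏ i, (x i - algebraMap ℂ L (α i))) :=
      Ge.prod Finset.univ _ _ fun i _ => Or.inr (h1 i).ge
    have g2 : Ge P (∑ i, e i) (g l) := Ge.prod Finset.univ _ _ fun i _ => h2 i
    have hsum : ∑ i, (2 * ν i + e i) = 2 * ∑ i, ν i + ∑ i, e i := by
      rw [Finset.sum_add_distrib, Finset.mul_sum]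
    refine ⟨fun D hD => ?_, fun hs D hD => ?_⟩
    · change Ge P 0 _
      unfold form
      have g3 : Ge P 0 (Matrix.of fun i j => D i (x j - algebraMap ℂ L (α j)) /
          (x j - algebraMap ℂ L (α j))).det := by
        refine ge_det P _ 0 (fun _ _ => 0) (fun i j => ?_) fun σ => by simp
        exact ge_logder_log (hD i) _
      rw [VG.det_shift D x α hne]
      have g4 := (g1.mul g3).pow 2
      have h6 : 0 ≤ ∑ i, (2 * ν i + e i) := Finset.sum_nonneg fun i _ => h3 i
      exact (g2.mul g4).mono (by push_cast; omega)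
    · change Ge P 0 _
      unfold form
      by_cases hS : 2 ≤ ∑ i, (2 * ν i + e i)
      · have g3 : Ge P (-1) (Matrix.of fun i j => D i (x j - algebraMap ℂ L (α j)) /
            (x j - algebraMap ℂ L (α j))).det := det_log D hD _ hne
        rw [VG.det_shift D x α hne]
        have g4 := (g1.mul g3).pow 2
        exact (g2.mul g4).mono (by push_cast; omega)
      · have hle : ∀ i, 2 * ν i + e i ≤ ∑ i, (2 * ν i + e i) := fun i =>
          Finset.single_le_sum (fun i _ => h3 i) (Finset.mem_univ i)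
        have hreg : ∀ i, Ge P 0 (x i) ∧ ν i = P.ord (aeval (x i) (A i)) ∧ 0 ≤ ν i ∧
            ν i ≤ 2 * ν i + e i := fun i =>
          (h4 i).resolve_right fun h6 => by have := hle i; omega
        have h7 := hs fun i => (hreg i).1
        have h8 : ∑ i, P.ord (aeval (x i) (A i)) = ∑ i, ν i :=
          Finset.sum_congr rfl fun i _ => (hreg i).2.1.symm
        have h9 : 0 ≤ ∑ i, ν i := Finset.sum_nonneg fun i _ => (hreg i).2.2.1
        have h10 : ∑ i, ν i ≤ ∑ i, (2 * ν i + e i) :=
          Finset.sum_le_sum fun i _ => (hreg i).2.2.2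
        rw [h8] at h7
        have h11 : ∑ i, ν i = 0 := by omega
        have h12 : ∀ i, ν i = 0 := fun i =>
          (Finset.sum_eq_zero_iff_of_nonneg fun i _ => (hreg i).2.2.1).1 h11 i (Finset.mem_univ i)
        have g6 : Ge P 0 (Matrix.of fun i j => D i (x j)).det := by
          refine ge_det P _ 0 (fun _ _ => 0) (fun i j => ?_) fun σ => by simp
          exact hD i (x j) (hreg j).1
        have h13 : 0 ≤ ∑ i, e i := Finset.sum_nonneg fun i _ => by
          have := (hreg i).2.2.2
          rw [h12 i] at this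
          omega
        exact (g2.mul (g6.pow 2)).mono (by push_cast; omega)
  refine ⟨?_, 2, by norm_num, fun l => form x 2 (g l), fun l => form_pluri _ _ _,
    fun P _ l => (key P l).1, fun P _ hP l => (key P l).2 (hst P hP), ?_⟩
  · rw [← hx.cardinalMk_eq_trdeg]
    simp
  · choose D hD using fun i : Fin d => exists_der x hx fun j => if i = j then (1 : L) else 0
    have hdet : (Matrix.of fun i j => D i (x j)).det = 1 := by
      have : (Matrix.of fun i j => D i (x j)) = (1 : Matrix (Fin d) (Fin d) L) := by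
        ext i j
        rw [Matrix.of_apply, hD, Matrix.one_apply]
      rw [this, Matrix.det_one]
    have hg0 : ∀ l, g l ≠ 0 := fun l => Finset.prod_ne_zero_iff.2 fun i _ =>
      div_ne_zero (pow_ne_zero _ (hx0 i)) (hAx i)
    refine ⟨D, ?_, ?_⟩
    · change g 0 * (Matrix.of fun i j => D i (x j)).det ^ 2 ≠ 0
      rw [hdet, one_pow, mul_one]
      exact hg0 0
    · have h1 : (fun i : Fin d => form x 2 (g i.succ) D / form x 2 (g 0) D) = x := by
        funext i
        unfold form
        rw [hdet, one_pow, mul_one, mul_one, div_eq_iff (hg0 0)]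
        have h2 : g i.succ = ∏ k, ((if k = i then x i else 1) * (x k ^ E 0 k / aeval (x k) (A k))) := by
          refine Finset.prod_congr rfl fun k _ => ?_
          simp only [E, Fin.succ_inj, (Fin.succ_ne_zero k).symm, if_false, pow_zero]
          by_cases hk : k = i
          · subst hk
            simp
            ring
          · rw [if_neg (fun h => hk h.symm), if_neg hk, pow_zero, one_mul]
        rw [h2, Finset.prod_mul_distrib, Finset.prod_ite_eq' Finset.univ i fun _ => x i,
          if_pos (Finset.mem_univ i)]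
      rw [h1]
      exact hx.1

/-- A pair of polynomials such that functions with shared values are degenerate (outside `H = 0`):
near infinity and on curves. -/
structure Good (P Q : ℂ[X]) (H : MvPolynomial (Fin 2) ℂ) : Prop where
  han : ∀ x : Fin 2 → MK (exD 1 one_pos), MvPolynomial.aeval x H ≠ 0 →
    (∀ (z : ℂ) (hz : z ∈ (exD 1 one_pos).U), Shr P Q (PL hz) (x 0) (x 1)) →
    ∀ i, x i ∈ Minf 1 one_pos
  cur : ∀ (L : Type) [Field L] [Algebra ℂ L] (x : Fin 2 → L) (Bd : Place ℂ L → Prop),
    Algebra.EssFiniteType ℂ L → Algebra.trdeg ℂ L = 1 →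
    Algebra.IsAlgebraic (IntermediateField.adjoin ℂ (Set.range x)) L →
    MvPolynomial.aeval x H ≠ 0 → (∀ R, ¬ Bd R → Shr P Q R (x 0) (x 1)) →
    LogGeneralType ℂ L 1 Bd

/-- the order of a polynomial in a constant -/
theorem ord_cst (P : Place ℂ L) {A : ℂ[X]} {x : L} {c : ℂ} (hx : x = algebraMap ℂ L c)
    (h : aeval x A ≠ 0) : P.ord (aeval x A) = 0 := by
  rw [hx, aeval_algebraMap_apply] at h ⊢
  refine P.ord_const fun h3 => h ?_
  rw [h3, map_zero]

/-- **All subvarieties.** -/
theorem subv {k : ℕ} {A : Fin k → ℂ[X]} (hA : ∀ i, (A i).Separable)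
    (h5 : ∀ i, 5 ≤ (A i).natDegree) (s : Fin k → Bool) {i0 j0 : Fin k} (hij : s i0 ≠ s j0)
    {H : MvPolynomial (Fin 2) ℂ} (hgood : Good (A i0) (A j0) H)
    (hess : Algebra.EssFiniteType ℂ L) {d : ℕ} {x : Fin k → L} {Bd : Place ℂ L → Prop}
    (hd : 0 < d) (htr : Algebra.trdeg ℂ L = d)
    (halg : Algebra.IsAlgebraic (IntermediateField.adjoin ℂ (Set.range x)) L)
    (hne : ∀ i, aeval (x i) (A i) ≠ 0) (hH : MvPolynomial.aeval ![x i0, x j0] H ≠ 0)
    (hst : ∀ P, ¬ Bd P → ∀ i j, s i ≠ s j → Shr (A i) (A j) P (x i) (x j)) :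
    LogGeneralType ℂ L d Bd := by
  classical
  have halg' : Algebra.IsAlgebraic (Algebra.adjoin ℂ (Set.range x)) L := by
    rw [← IntermediateField.isAlgebraic_adjoin_iff_top]
    exact halg
  by_cases h : (∃ (i : Fin k) (c : ℂ), x i = algebraMap ℂ L c) ∨ 2 ≤ d
  · obtain ⟨ι, hι, hnb⟩ := exists_coords s hij halg' htr h
    refine high (fun l => hA (ι l)) (fun l => h5 (ι l)) hι fun P hP hreg hsum => ?_
    have htl : ∀ j, Transcendental ℂ (x (ι j)) := fun j => hι.1.transcendental j
    have hcl : ∀ j (c : ℂ), x (ι j) ≠ algebraMap ℂ L c := fun j c h => htl j (by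
      rw [h]; exact isAlgebraic_algebraMap c)
    have hnn : ∀ l, 0 ≤ P.ord (aeval (x (ι l)) (A (ι l))) := by
      intro l
      have hge : ∀ c : ℂ, 0 ≤ P.ord (x (ι l) - algebraMap ℂ L c) := fun c =>
        ((hreg l).sub (Ge.const c)).resolve_left (sub_ne_zero.2 (hcl l c))
      rw [(ord_poly P (hcl l) (hA (ι l)).ne_zero).2]
      refine Multiset.sum_nonneg fun t ht => ?_
      obtain ⟨c, -, rfl⟩ := Multiset.mem_map.1 ht
      exact hge c
    -- exactly one order is one
    obtain ⟨l, hl⟩ : ∃ l, P.ord (aeval (x (ι l)) (A (ι l))) ≠ 0 := by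
      by_contra hcon
      push Not at hcon
      rw [Finset.sum_eq_zero fun l _ => hcon l] at hsum
      exact zero_ne_one hsum
    have hsplit : ∀ l', l' ≠ l → P.ord (aeval (x (ι l)) (A (ι l))) +
        P.ord (aeval (x (ι l')) (A (ι l'))) ≤ 1 := by
      intro l' hl'
      rw [← hsum, ← Finset.sum_pair (f := fun k => P.ord (aeval (x (ι k)) (A (ι k)))) hl'.symm]
      exact Finset.sum_le_sum_of_subset_of_nonneg (Finset.subset_univ _) fun k _ _ => hnn k
    have hle : P.ord (aeval (x (ι l)) (A (ι l))) ≤ 1 := by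
      rw [← hsum]
      exact Finset.single_le_sum (f := fun k => P.ord (aeval (x (ι k)) (A (ι k))))
        (fun k _ => hnn k) (Finset.mem_univ l)
    have h1 := hnn l
    have hone : P.ord (aeval (x (ι l)) (A (ι l))) = 1 := by omega
    rcases hnb l with ⟨l', hl'⟩ | ⟨i, c, hic, hs⟩
    · have hll : l' ≠ l := by
        rintro rfl
        exact hl' rfl
      have h2 := hsplit l' hll
      have h3 := hnn l'
      exact hst P hP _ _ hl' (hreg l') (hreg l) (hne _) (hne _) (by omega)
    · refine hst P hP _ _ hs (by rw [hic]; exact Ge.const c) (hreg l) (hne _) (hne _) ?_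
      rw [ord_cst P hic (hne i), hone, zero_add]
  · push Not at h
    obtain ⟨hnc, hd2⟩ := h
    obtain rfl : d = 1 := by omega
    refine hgood.cur L ![x i0, x j0] Bd hess (by rw [htr]; simp) ?_ hH
      fun R hR => hst R hR i0 j0 hij
    have ht : Transcendental ℂ (x i0) := by
      intro h1
      obtain ⟨c, hc⟩ := const_of_algebraic h1
      exact hnc i0 c hc
    have hind : AlgebraicIndependent ℂ ![x i0] := algebraicIndependent_iff_transcendental.2 ht
    have hbas : IsTranscendenceBasis ℂ ![x i0] :=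
      hind.isTranscendenceBasis_of_lift_trdeg_le_of_finite (by rw [htr]; simp)
    have h1 := hbas.isAlgebraic_field
    have hle : IntermediateField.adjoin ℂ (Set.range ![x i0]) ≤
        IntermediateField.adjoin ℂ (Set.range ![x i0, x j0]) := by
      refine IntermediateField.adjoin.mono _ _ _ ?_
      rintro _ ⟨i, rfl⟩
      exact ⟨0, by fin_cases i; rfl⟩
    constructor
    intro a
    obtain ⟨p, hp0, hp⟩ := h1.1 a
    refine ⟨p.map (IntermediateField.inclusion hle).toRingHom, ?_, ?_⟩
    · exact (Polynomial.map_ne_zero_iff (IntermediateField.inclusion hle).toRingHom.injective).2 hp0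
    · rw [Polynomial.aeval_def, Polynomial.eval₂_map]
      exact hp

end Pool.Agent.K9h12.NV
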