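import Pool.Agent.K9h12.NV.High
import Pool.Agent.K9h12.SG.Nsc

/-!
The transfer theorem for several functions, and the main theorem about families of functions without
simple contacts.
-/

set_option autoImplicit false

open FF Polynomial

namespace Pool.Agent.K9h12.NV

open Pool.Agent.W603.LV Pool.Agent.W602.GT Pool.Agent.K9h12.SH Pool.Agent.Y190.AN
  Pool.Agent.W603.BP Pool.Agent.W601.PH Pool.Agent.K9h12.FR

/-- **Maps from the punctured disc.** -/
theorem hanf {k : ℕ} {A : Fin k → ℂ[X]} (hA : ∀ i, (A i).Separable)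
    (h5 : ∀ i, 5 ≤ (A i).natDegree) (s : Fin k → Bool) {i0 j0 : Fin k} (hij : s i0 ≠ s j0)
    {H : MvPolynomial (Fin 2) ℂ} (hgood : Good (A i0) (A j0) H)
    (x : Fin k → MK (exD 1 one_pos)) (hne : ∀ i, aeval (x i) (A i) ≠ 0)
    (hH : MvPolynomial.aeval ![x i0, x j0] H ≠ 0)
    (hst : ∀ (z : ℂ) (hz : z ∈ (exD 1 one_pos).U) i j, s i ≠ s j →
      Shr (A i) (A j) (PL hz) (x i) (x j)) : ∀ i, x i ∈ Minf 1 one_pos := by
  have h0 := hgood.han ![x i0, x j0] hH fun z hz => hst z hz i0 j0 hij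
  have hi0 : x i0 ∈ Minf 1 one_pos := h0 0
  have hj0 : x j0 ∈ Minf 1 one_pos := h0 1
  intro i
  by_cases h : s i = s i0
  · exact spread (A := A j0) (hA i) (h5 i) hj0 (hne j0) (hne i) fun z hz =>
      hst z hz j0 i (by rw [h]; exact hij.symm)
  · exact spread (A := A i0) (hA i) (h5 i) hi0 (hne i0) (hne i) fun z hz =>
      hst z hz i0 i fun h1 => h h1.symm

/-- **The transfer.** -/
theorem transfer {n N : ℕ} {X D : PSet N}
    {g : Fin (n + 1) → MvPolynomial (Fin (N + 1)) ℂ} {δ : ℕ} (hg : ∀ i, (g i).IsHomogeneous δ)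
    (C : ∀ (L : Type) [Field L] [Algebra ℂ L], FF.Place ℂ L → (Fin n → L) → Prop)
    {G0 : MvPolynomial (Fin (N + 1)) ℂ} (hG0 : ∃ E : ℕ, G0.IsHomogeneous E)
    {H : MvPolynomial (Fin n) ℂ}
    (hC : ∀ (L : Type) [Field L] [Algebra ℂ L] (a : Fin (N + 1) → L), X.Mem a →
      MvPolynomial.aeval a G0 ≠ 0 → MvPolynomial.aeval a (g 0) ≠ 0 →
      MvPolynomial.aeval (fun i : Fin n => MvPolynomial.aeval a (g i.succ) /
        MvPolynomial.aeval a (g 0)) H ≠ 0 → ∀ P : FF.Place ℂ L, ¬ CentreIn D a P →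
      C L P fun i => MvPolynomial.aeval a (g i.succ) / MvPolynomial.aeval a (g 0))
    (han : ∀ x : Fin n → MK (exD 1 one_pos), MvPolynomial.aeval x H ≠ 0 →
      (∀ (z : ℂ) (hz : z ∈ (exD 1 one_pos).U), C _ (PL hz) x) → ∀ i, x i ∈ Minf 1 one_pos)
    (halg : ∀ (L : Type) [Field L] [Algebra ℂ L] (d : ℕ) (x : Fin n → L)
      (Bd : FF.Place ℂ L → Prop), Algebra.EssFiniteType ℂ L → 0 < d → Algebra.trdeg ℂ L = d →
      Algebra.IsAlgebraic (IntermediateField.adjoin ℂ (Set.range x)) L →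
      MvPolynomial.aeval x H ≠ 0 → (∀ P, ¬ Bd P → C L P x) → LogGeneralType ℂ L d Bd)
    {K : Type} [Field K] [Algebra ℂ K] {a : Fin (N + 1) → K} (hK : X.FunctionField K a)
    (hD : ¬ D.Mem a) (hG0a : MvPolynomial.aeval a G0 ≠ 0) (hg0 : MvPolynomial.aeval a (g 0) ≠ 0)
    (hKalg : Algebra.IsAlgebraic (IntermediateField.adjoin ℂ
      (Set.range fun i : Fin n => MvPolynomial.aeval a (g i.succ) /
        MvPolynomial.aeval a (g 0))) K)
    (hHa : MvPolynomial.aeval (fun i : Fin n => MvPolynomial.aeval a (g i.succ) /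
        MvPolynomial.aeval a (g 0)) H ≠ 0)
    {d : ℕ} (hd : 0 < d) (htr : Algebra.trdeg ℂ K = d) : Four X D K a d := by
  classical
  choose Dg mm c hrel using fun i j => exists_rel hg hK hg0 hKalg i j
  let H' : MvPolynomial (Fin (n + 1)) ℂ :=
    Pool.Agent.TH152.HY.Hy 0 (MvPolynomial.rename Fin.succ H)
      (MvPolynomial.rename Fin.succ H).totalDegree
  let R : MvPolynomial (Fin (n + 1)) ℂ :=
    (∏ i : Fin (N + 1), ∏ j : Fin (N + 1), c i j (mm i j)) * (H' * MvPolynomial.X 0)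
  let Q : MvPolynomial (Fin (N + 1)) ℂ := G0 * MvPolynomial.aeval g R
  obtain ⟨E, hRh⟩ : ∃ E, R.IsHomogeneous E :=
    ⟨_, (MvPolynomial.IsHomogeneous.prod _ _ _ fun i _ =>
      MvPolynomial.IsHomogeneous.prod _ _ _ fun j _ =>
      (hrel i j).1.hom _ le_rfl).mul ((Pool.Agent.TH152.HY.Hy_hom 0 _ le_rfl).mul
      (MvPolynomial.isHomogeneous_X _ _))⟩
  obtain ⟨E0, hE0⟩ := hG0
  have hQh : ∃ E, Q.IsHomogeneous E := ⟨_, hE0.mul (bind_hom hg hRh)⟩
  have hH' : ∀ {L : Type} [Field L] [Algebra ℂ L] (b : Fin (n + 1) → L), b 0 ≠ 0 →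
      (MvPolynomial.aeval b H' ≠ 0 ↔
        MvPolynomial.aeval (fun i : Fin n => b i.succ / b 0) H ≠ 0) := by
    intro L _ _ b hb
    have h1 := Pool.Agent.TH152.HY.Hy_field b hb (MvPolynomial.rename Fin.succ H) le_rfl
    have h2 : MvPolynomial.aeval (fun j => b j / b 0) (MvPolynomial.rename Fin.succ H) =
        MvPolynomial.aeval (fun i : Fin n => b i.succ / b 0) H := by
      rw [MvPolynomial.aeval_rename]
      rfl
    rw [h2] at h1
    rw [show MvPolynomial.aeval b H' = _ from h1]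
    simp [hb]
  have hsplit : ∀ {L : Type} [Field L] [Algebra ℂ L] (y : Fin (N + 1) → L),
      MvPolynomial.aeval y Q ≠ 0 →
      MvPolynomial.aeval y G0 ≠ 0 ∧ MvPolynomial.aeval y (g 0) ≠ 0 ∧
      (∀ i j, MvPolynomial.aeval (fun i => MvPolynomial.aeval y (g i)) (c i j (mm i j)) ≠ 0) ∧
      MvPolynomial.aeval (fun i : Fin n => MvPolynomial.aeval y (g i.succ) /
        MvPolynomial.aeval y (g 0)) H ≠ 0 := by
    intro L _ _ y hy
    simp only [Q, map_mul] at hy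
    obtain ⟨h1, h2⟩ := mul_ne_zero_iff.1 hy
    rw [aeval_bind] at h2
    simp only [R, map_mul, map_prod, MvPolynomial.aeval_X] at h2
    obtain ⟨h3, h4⟩ := mul_ne_zero_iff.1 h2
    obtain ⟨h5, h6⟩ := mul_ne_zero_iff.1 h4
    refine ⟨h1, h6, fun i j h0 => h3 ?_, ?_⟩
    · rw [Finset.prod_eq_zero (Finset.mem_univ i) (Finset.prod_eq_zero (Finset.mem_univ j) h0)]
    · exact (hH' (fun i => MvPolynomial.aeval y (g i)) h6).1 h5
  have hQa : MvPolynomial.aeval a Q ≠ 0 := by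
    simp only [Q, map_mul]
    rw [aeval_bind]
    simp only [R, map_mul, map_prod, MvPolynomial.aeval_X]
    refine mul_ne_zero hG0a (mul_ne_zero ?_ (mul_ne_zero ?_ hg0))
    · exact Finset.prod_ne_zero_iff.mpr fun i _ => Finset.prod_ne_zero_iff.mpr fun j _ =>
        (hrel i j).2
    · exact (hH' (fun i => MvPolynomial.aeval a (g i)) hg0).2 hHa
  -- Lang
  have hLang : LangOff X D Q := by
    intro L _ _ a' d hmem _ hne hgen htr hd
    obtain ⟨h0, h1, h2, h3⟩ := hsplit a' hne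
    refine halg L d _ (CentreIn D a') (ess_of_gen hgen) hd htr ?_ h3
      fun P hP => hC L a' hmem h0 h1 h3 P hP
    set F := IntermediateField.adjoin ℂ
      (Set.range fun i : Fin n => MvPolynomial.aeval a' (g i.succ) /
        MvPolynomial.aeval a' (g 0)) with hF
    have hall : ∀ i j, a' j ≠ 0 → IsAlgebraic F (a' i / a' j) := fun i j haj =>
      ratio_alg (hrel i j).1 hmem haj h1 (h2 i j) F fun k =>
        IntermediateField.subset_adjoin ℂ _ ⟨k, rfl⟩
    constructor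
    intro f
    have hle : IntermediateField.adjoin ℂ {f : L | ∃ i j, a' j ≠ 0 ∧ f = a' i / a' j} ≤
        (algebraicClosure F L).restrictScalars ℂ := by
      rw [IntermediateField.adjoin_le_iff]
      rintro f ⟨i, j, hj, rfl⟩
      exact mem_algebraicClosure_iff.mpr (hall i j hj)
    rw [hgen] at hle
    exact mem_algebraicClosure_iff.mp (hle (IntermediateField.mem_top (x := f)))
  -- Picard
  have hPic : PicardOff X D Q := by
    rintro f hf ⟨z0, hz0, hne⟩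
    have hz0' : z0⁻¹ ∈ (exD 1 one_pos).U := inv_mem_ext (mem_disc.1 hz0)
    have hQ := (ord_eval hf Q hz0' (by rw [inv_inv]; exact hne)).1
    obtain ⟨h0, h1, h2, h3⟩ := hsplit _ hQ
    have hx := han _ h3 fun z hz => hC _ _ (disc_mem hf) h0 h1 h3 _ (disc_centre hf hz)
    refine extends_of_minf (pcurve_of hf) (coord_mero hf) fun i j hj => ?_
    exact Minf_closed (ratio_alg (hrel i j).1 (disc_mem hf) hj h1 (h2 i j) (Minf 1 one_pos) hx)
  refine ⟨hLang K a d hK.mem hD hQa hK.gen htr hd, Q, hQh, ?_, hPic, brody_of_picard hPic, hLang⟩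
  -- a point of `X - D`
  have h1 : ∃ F ∈ D.eqs, MvPolynomial.aeval a F ≠ 0 := by
    by_contra hcon
    push Not at hcon
    exact hD ⟨hK.mem.1, hcon⟩
  obtain ⟨F, hF, hFab⟩ := h1
  by_contra hcon
  push Not at hcon
  have h3 : MvPolynomial.aeval a (F * Q) = 0 := null (X := X) (fun u hu => by
    rw [map_mul]
    by_cases hFv : MvPolynomial.eval u F = 0
    · rw [hFv, zero_mul]
    · rw [hcon u ⟨hu, fun hd => hFv (by rw [← MvPolynomial.aeval_eq_eval]; exact hd.2 F hF)⟩, mul_zero])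
    hK.mem
  rw [map_mul] at h3
  exact mul_ne_zero hFab hQa h3

/-- quotients of forms which agree at the generic point agree at all points -/
theorem spec_quot {N : ℕ} {X : PSet N} {K : Type} [Field K] [Algebra ℂ K] {a : Fin (N + 1) → K}
    (hK : X.FunctionField K a) {δ δ' : ℕ} {g0 g1 h0 h1 : MvPolynomial (Fin (N + 1)) ℂ}
    (e0 : g0.IsHomogeneous δ) (e1 : g1.IsHomogeneous δ) (f0 : h0.IsHomogeneous δ')
    (f1 : h1.IsHomogeneous δ') (hg : MvPolynomial.aeval a g0 ≠ 0)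
    (hh : MvPolynomial.aeval a h0 ≠ 0)
    (heq : MvPolynomial.aeval a g1 / MvPolynomial.aeval a g0 =
      MvPolynomial.aeval a h1 / MvPolynomial.aeval a h0) {L : Type} [Field L] [Algebra ℂ L]
    {a' : Fin (N + 1) → L} (ha' : X.Mem a') (hg' : MvPolynomial.aeval a' g0 ≠ 0)
    (hh' : MvPolynomial.aeval a' h0 ≠ 0) :
    MvPolynomial.aeval a' g1 / MvPolynomial.aeval a' g0 =
      MvPolynomial.aeval a' h1 / MvPolynomial.aeval a' h0 := by
  rw [div_eq_div_iff hg hh, ← map_mul, ← map_mul, ← sub_eq_zero, ← map_sub] at heq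
  have h2 := null (X := X) (a := a') (fun u hu => hK.generic _
    ⟨δ + δ', (e1.mul f0).sub (by rw [add_comm δ δ']; exact f1.mul e0)⟩ heq u hu) ha'
  rw [map_sub, map_mul, map_mul, sub_eq_zero] at h2
  rw [div_eq_div_iff hg' hh', h2]

/-- **The main theorem.** -/
theorem four {k : ℕ} {A : Fin k → ℂ[X]} (hA : ∀ i, (A i).Separable)
    (h5 : ∀ i, 5 ≤ (A i).natDegree) (s : Fin k → Bool) {i0 j0 : Fin k} (hij : s i0 ≠ s j0)
    {H : MvPolynomial (Fin 2) ℂ} (hgood : Good (A i0) (A j0) H) {N : ℕ} {X D : PSet N}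
    {K : Type} [Field K] [Algebra ℂ K] {a : Fin (N + 1) → K} (hK : X.FunctionField K a)
    (hD : ¬ D.Mem a) {d : ℕ} (hd : 0 < d) (htr : Algebra.trdeg ℂ K = d) {x : Fin k → K}
    (halg : Algebra.IsAlgebraic (IntermediateField.adjoin ℂ (Set.range x)) K)
    (hne : ∀ i, aeval (x i) (A i) ≠ 0) (hH : MvPolynomial.aeval ![x i0, x j0] H ≠ 0)
    (hns : ∀ i j, s i ≠ s j → SG.NoSimpleContact (A i) (A j) X D a (x i) (x j)) :
    Four X D K a d := by
  classical
  -- common forms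
  obtain ⟨δ, g, hg, hg0, hgx⟩ := exists_common hK x
  have hns' : ∀ p : Fin k × Fin k, ∃ (δ' : ℕ) (g' : Fin 3 → MvPolynomial (Fin (N + 1)) ℂ)
      (G0 : MvPolynomial (Fin (N + 1)) ℂ), (∀ i, (g' i).IsHomogeneous δ') ∧
      (∃ E : ℕ, G0.IsHomogeneous E) ∧ MvPolynomial.aeval a G0 ≠ 0 ∧
      MvPolynomial.aeval a (g' 0) ≠ 0 ∧ (s p.1 ≠ s p.2 →
      (x p.1 = MvPolynomial.aeval a (g' 1) / MvPolynomial.aeval a (g' 0) ∧
      x p.2 = MvPolynomial.aeval a (g' 2) / MvPolynomial.aeval a (g' 0) ∧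
      ∀ (L : Type) [Field L] [Algebra ℂ L] (a' : Fin (N + 1) → L) (x' y' : L),
      x' = MvPolynomial.aeval a' (g' 1) / MvPolynomial.aeval a' (g' 0) →
      y' = MvPolynomial.aeval a' (g' 2) / MvPolynomial.aeval a' (g' 0) →
      X.Mem a' → MvPolynomial.aeval a' G0 ≠ 0 → MvPolynomial.aeval a' (g' 0) ≠ 0 →
      ∀ v : FF.Place ℂ L, ¬ CentreIn D a' v → Ge v 0 x' → Ge v 0 y' →
        aeval x' (A p.1) ≠ 0 → aeval y' (A p.2) ≠ 0 →
        v.ord (aeval x' (A p.1)) + v.ord (aeval y' (A p.2)) ≠ 1)) := by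
    intro p
    by_cases hp : s p.1 ≠ s p.2
    · obtain ⟨δ', g', G0, e1, e2, e3, e4, e5, e6, e7⟩ := hns p.1 p.2 hp
      exact ⟨δ', g', G0, e1, e2, e3, e4, fun _ => ⟨e5, e6, e7⟩⟩
    · exact ⟨0, fun _ => 1, 1, fun _ => MvPolynomial.isHomogeneous_one _ _,
        ⟨0, MvPolynomial.isHomogeneous_one _ _⟩, by simp, by simp, fun h => absurd h hp⟩
  choose δ' g' G0 e1 e2 e3 e4 e5 using hns'
  choose E0 hE0 using e2
  let GG : MvPolynomial (Fin (N + 1)) ℂ := ∏ p, (G0 p * g' p 0)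
  have hGG : ∃ E : ℕ, GG.IsHomogeneous E :=
    ⟨_, MvPolynomial.IsHomogeneous.prod _ _ _ fun p _ => (hE0 p).mul (e1 p 0)⟩
  have hGGv : ∀ {L : Type} [Field L] [Algebra ℂ L] (a' : Fin (N + 1) → L),
      MvPolynomial.aeval a' GG ≠ 0 ↔
        ∀ p, MvPolynomial.aeval a' (G0 p) ≠ 0 ∧ MvPolynomial.aeval a' (g' p 0) ≠ 0 := by
    intro L _ _ a'
    simp only [GG, map_prod, map_mul, Finset.prod_ne_zero_iff, mul_ne_zero_iff]
    simp
  -- the equation
  let HH : MvPolynomial (Fin k) ℂ := (∏ i, aeval (MvPolynomial.X i) (A i)) *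
    MvPolynomial.rename ![i0, j0] H
  have hHHv : ∀ {L : Type} [Field L] [Algebra ℂ L] (z : Fin k → L),
      MvPolynomial.aeval z HH ≠ 0 ↔ (∀ i, aeval (z i) (A i) ≠ 0) ∧
        MvPolynomial.aeval ![z i0, z j0] H ≠ 0 := by
    intro L _ _ z
    simp only [HH, map_mul, map_prod, mul_ne_zero_iff, Finset.prod_ne_zero_iff,
      MvPolynomial.aeval_rename]
    have h1 : (z ∘ ![i0, j0]) = ![z i0, z j0] := by
      funext i
      fin_cases i <;> rfl
    rw [h1]
    have h2 : ∀ i, MvPolynomial.aeval z (aeval (MvPolynomial.X i) (A i) : MvPolynomial (Fin k) ℂ) =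
        aeval (z i) (A i) := fun i => by
      rw [← Polynomial.aeval_algHom_apply, MvPolynomial.aeval_X]
    simp only [h2]
    simp
  have ex : (fun i : Fin k => MvPolynomial.aeval a (g i.succ) / MvPolynomial.aeval a (g 0)) = x :=
    funext fun i => (hgx i).symm
  refine transfer hg (fun L _ _ v z => ∀ i j, s i ≠ s j → Shr (A i) (A j) v (z i) (z j)) hGG
    (H := HH) ?_ ?_ ?_ hK hD ((hGGv a).2 fun p => ⟨e3 p, e4 p⟩) hg0 (by rw [ex]; exact halg)
    (by rw [ex]; exact (hHHv x).2 ⟨hne, hH⟩) hd htr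
  · intro L _ _ a' ha' h1 h2 _ v hv i j hs hx hy hAi hAj
    obtain ⟨ei, ej, hc⟩ := e5 (i, j) hs
    simp only at ei ej hc
    obtain ⟨q1, q2⟩ := (hGGv a').1 h1 (i, j)
    have r1 := spec_quot hK (hg 0) (hg i.succ) (e1 (i, j) 0) (e1 (i, j) 1) hg0 (e4 (i, j))
      (by rw [← hgx i, ← ei]) ha' h2 q2
    have r2 := spec_quot hK (hg 0) (hg j.succ) (e1 (i, j) 0) (e1 (i, j) 2) hg0 (e4 (i, j))
      (by rw [← hgx j, ← ej]) ha' h2 q2
    exact hc L a' _ _ r1 r2 ha' q1 q2 v hv hx hy hAi hAj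
  · intro z hz hst
    obtain ⟨z1, z2⟩ := (hHHv z).1 hz
    exact hanf hA h5 s hij hgood z z1 z2 fun w hw i j hs => hst w hw i j hs
  · intro L _ _ d' z Bd hess hd' htr' halg' hz hst
    obtain ⟨z1, z2⟩ := (hHHv z).1 hz
    exact subv hA h5 s hij hgood hess hd' htr' halg' z1 z2 hst

end Pool.Agent.K9h12.NV
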