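import Pool.Agent.K9h12.SH.Halg

/-!
Transcendence bases among the members of a finite family.
-/

set_option autoImplicit false

namespace Pool.Agent.K9h12.NV

open Pool.Agent.W603.LV Pool.Agent.W602.GT

variable {L : Type} [Field L] [Algebra ℂ L] {k d : ℕ} {x : Fin k → L}

/-- a basis with prescribed members -/
theorem exists_basis {u0 : Set (Fin k)} (hind : AlgebraicIndepOn ℂ x u0)
    (halg : Algebra.IsAlgebraic (Algebra.adjoin ℂ (Set.range x)) L)
    (htr : Algebra.trdeg ℂ L = d) :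
    ∃ ι : Fin d → Fin k, IsTranscendenceBasis ℂ (fun l => x (ι l)) ∧ ∀ i ∈ u0, ∃ l, ι l = i := by
  classical
  have himg : AlgebraicIndepOn ℂ id (x '' u0) := AlgebraicIndependent.image hind
  obtain ⟨u, h1, h2, hbas⟩ := exists_isTranscendenceBasis_between (R := ℂ) (x '' u0)
    (Set.range x) (Set.image_subset_range x u0) himg
  have hf : ∀ z : u, ∃ i : Fin k, x i = z ∧ ((z : L) ∈ x '' u0 → i ∈ u0) := by
    intro z
    by_cases hz : (z : L) ∈ x '' u0
    · obtain ⟨i, hi, hiz⟩ := hz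
      exact ⟨i, hiz, fun _ => hi⟩
    · obtain ⟨i, hi⟩ := h2 z.2
      exact ⟨i, hi, fun h => absurd h hz⟩
  choose f hf1 hf2 using hf
  have hcard := hbas.cardinalMk_eq_trdeg
  rw [htr] at hcard
  obtain ⟨e⟩ : Nonempty (Fin d ≃ u) := by
    have h1 : Cardinal.mk (Fin d) = Cardinal.mk u := by
      rw [hcard]
      simp
    exact Cardinal.eq.1 h1
  refine ⟨fun l => f (e l), ?_, fun i hi => ?_⟩
  · have h3 : (fun l => x (f (e l))) = fun l => ((e l : u) : L) := funext fun l => hf1 _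
    rw [h3]
    exact hbas.comp_equiv e
  · have h3 : x i ∈ u := h1 ⟨i, hi, rfl⟩
    refine ⟨e.symm ⟨x i, h3⟩, ?_⟩
    simp only [Equiv.apply_symm_apply]
    have h4 := hf1 ⟨x i, h3⟩
    have h5 := hf2 ⟨x i, h3⟩ ⟨i, hi, rfl⟩
    have h6 : Function.Injective fun j : u0 => x j := hind.injective
    have h7 := @h6 ⟨_, h5⟩ ⟨i, hi⟩ h4
    exact congrArg Subtype.val h7

theorem indep_single {i : Fin k} (h : Transcendental ℂ (x i)) : AlgebraicIndepOn ℂ x {i} := by
  have : Subsingleton ({i} : Set (Fin k)) := by infer_instance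
  exact (algebraicIndependent_singleton_iff (⟨i, rfl⟩ : ({i} : Set (Fin k)))).2 h

/-- pairs -/
theorem exists_pair (s : Fin k → Bool) (halg : Algebra.IsAlgebraic
      (Algebra.adjoin ℂ (Set.range x)) L) (htr : Algebra.trdeg ℂ L = d) (hd : 2 ≤ d)
    {i0 j0 : Fin k} (hij : s i0 ≠ s j0) (hi : Transcendental ℂ (x i0))
    (hj : Transcendental ℂ (x j0)) :
    ∃ i j, s i ≠ s j ∧ AlgebraicIndepOn ℂ x {i, j} := by
  classical
  obtain ⟨l, hl⟩ : ∃ l, Transcendental (Algebra.adjoin ℂ (x '' {j0})) (x l) := by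
    by_contra hcon
    push Not at hcon
    have h1 : Algebra.IsAlgebraic (Algebra.adjoin ℂ (x '' {j0})) L := by
      refine ⟨fun a => (halg.1 a).adjoin_of_forall_isAlgebraic ?_⟩
      rintro _ ⟨⟨i, rfl⟩, -⟩
      have := hcon i
      unfold Transcendental at this
      exact not_not.1 this
    have h2 := Algebra.IsAlgebraic.trdeg_le_cardinalMk ℂ (A := L) (x '' {j0})
    rw [htr] at h2
    have h3 : Cardinal.mk (x '' {j0} : Set L) ≤ (1 : ℕ) := by
      rw [Set.image_singleton]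
      simp
    have h4 : d ≤ 1 := by exact_mod_cast h2.trans h3
    omega
  by_cases hs : s l = s j0
  · by_cases hi0 : Transcendental (Algebra.adjoin ℂ (x '' {j0})) (x i0)
    · exact ⟨i0, j0, hij, (indep_single hj).insert hi0⟩
    · have hi0' : IsAlgebraic (Algebra.adjoin ℂ (x '' {j0})) (x i0) := by
        unfold Transcendental at hi0
        exact not_not.1 hi0
      refine ⟨l, i0, by rw [hs]; exact hij.symm, (indep_single hi).insert ?_⟩
      intro h5
      refine hl (h5.adjoin_of_forall_isAlgebraic ?_)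
      rintro _ ⟨⟨i, hi, rfl⟩, -⟩
      rw [Set.mem_singleton_iff.1 hi]
      exact hi0'
  · exact ⟨l, j0, hs, (indep_single hj).insert hl⟩

/-- **The choice of the coordinates.** -/
theorem exists_coords (s : Fin k → Bool) {i0 j0 : Fin k} (hij : s i0 ≠ s j0)
    (halg : Algebra.IsAlgebraic (Algebra.adjoin ℂ (Set.range x)) L)
    (htr : Algebra.trdeg ℂ L = d)
    (h : (∃ (i : Fin k) (c : ℂ), x i = algebraMap ℂ L c) ∨ 2 ≤ d) :
    ∃ ι : Fin d → Fin k, IsTranscendenceBasis ℂ (fun l => x (ι l)) ∧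
      ∀ l, (∃ l', s (ι l') ≠ s (ι l)) ∨
        ∃ (i : Fin k) (c : ℂ), x i = algebraMap ℂ L c ∧ s i ≠ s (ι l) := by
  classical
  have htc : ∀ i, (¬ ∃ c : ℂ, x i = algebraMap ℂ L c) → Transcendental ℂ (x i) := by
    intro i hi h1
    exact hi (const_of_algebraic h1)
  have hother : ∀ b : Bool, ∃ t, s t ≠ b := by
    intro b
    by_cases h1 : s i0 = b
    · exact ⟨j0, fun h2 => hij (h1.trans h2.symm)⟩
    · exact ⟨i0, h1⟩
  have hbool : ∀ {a b c : Bool}, a ≠ b → c ≠ b → a = c := by decide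
  by_cases hc : ∃ (i : Fin k) (c : ℂ), x i = algebraMap ℂ L c
  · obtain ⟨i, c, hic⟩ := hc
    by_cases ht : ∃ t, s t ≠ s i ∧ ¬ ∃ c : ℂ, x t = algebraMap ℂ L c
    · obtain ⟨t, ht1, ht2⟩ := ht
      obtain ⟨ι, hι, hι2⟩ := exists_basis (indep_single (htc t ht2)) halg htr
      refine ⟨ι, hι, fun l => ?_⟩
      by_cases hs : s (ι l) = s i
      · obtain ⟨l', hl'⟩ := hι2 t rfl
        exact Or.inl ⟨l', by rw [hl', hs]; exact ht1⟩
      · exact Or.inr ⟨i, c, hic, fun h1 => hs h1.symm⟩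
    · push Not at ht
      have hemp : AlgebraicIndepOn ℂ x ∅ := by
        have : IsEmpty (∅ : Set (Fin k)) := by infer_instance
        exact (algebraicIndependent_empty_type_iff).2 (algebraMap ℂ L).injective
      obtain ⟨ι, hι, -⟩ := exists_basis hemp halg htr
      refine ⟨ι, hι, fun l => Or.inr ?_⟩
      by_cases hs : s (ι l) = s i
      · obtain ⟨t, ht1⟩ := hother (s i)
        obtain ⟨c', hc'⟩ := ht t ht1
        exact ⟨t, c', hc', by rw [hs]; exact ht1⟩
      · exact ⟨i, c, hic, fun h1 => hs h1.symm⟩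
  · have hd := h.resolve_left hc
    push Not at hc
    obtain ⟨i, j, hs, hind⟩ := exists_pair s halg htr hd hij
      (htc i0 (by push Not; exact hc i0)) (htc j0 (by push Not; exact hc j0))
    obtain ⟨ι, hι, hι2⟩ := exists_basis hind halg htr
    refine ⟨ι, hι, fun l => Or.inl ?_⟩
    obtain ⟨l1, h1⟩ := hι2 i (Set.mem_insert _ _)
    obtain ⟨l2, h2⟩ := hι2 j (Set.mem_insert_of_mem _ rfl)
    by_cases h3 : s (ι l) = s i
    · exact ⟨l2, by rw [h2, h3]; exact hs.symm⟩
    · exact ⟨l1, by rw [h1]; exact fun h4 => h3 h4.symm⟩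

end Pool.Agent.K9h12.NV
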