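import Pool.Agent.K9h12.NV.Tr
import Pool.Agent.K9h12.SG.Fin
import Pool.Agent.K9h12.SG.Gen

/-!
Good pairs of polynomials: few critical points, and distinct relative orders.
-/

set_option autoImplicit false

open FF Polynomial

namespace Pool.Agent.K9h12.NV

open Pool.Agent.W603.LV Pool.Agent.W602.GT Pool.Agent.K9h12.SH Pool.Agent.Y190.AN
  Pool.Agent.W603.BP Pool.Agent.W601.PH Pool.Agent.K9h12.FR

/-- few critical points -/
theorem good_crit {P Q : ℂ[X]} (hP : P.Separable) (hQ : Q.Separable)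
    (hp : 2 * kk P + 14 ≤ P.natDegree) (hq : 2 * kk Q + 14 ≤ Q.natDegree) :
    ∃ H : MvPolynomial (Fin 2) ℂ, H ≠ 0 ∧ Good P Q H := by
  obtain ⟨H, hH⟩ := exists_Exc hP hQ (by omega) (by omega)
  refine ⟨H, hH.ne, fun z hz hst => Pool.Agent.K9h12.SH.han hP hQ hp hq hH z hz hst, ?_⟩
  intro L _ _ x Bd hess htr halg' hx hst
  exact Pool.Agent.K9h12.SH.halg hP hQ hp hq hH hess one_pos (by rw [htr]; simp) halg' hx hst

/-- distinct orders -/
theorem good_order {P Q : ℂ[X]} (hP : P.Separable) (hQ : Q.Separable) {a b : ℕ}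
    (ha : ¬ SG.OrderLe P a) (hb : SG.OrderLe Q b)
    (hab : P.natDegree * (b + 8) + 8 * Q.natDegree < Q.natDegree * a) :
    6 ≤ P.natDegree ∧ 6 ≤ Q.natDegree ∧
    Good P Q (aeval (MvPolynomial.X 0) P * aeval (MvPolynomial.X 1) Q) := by
  obtain ⟨A, A', B, hk⟩ := SG.exists_pkg hP hQ ha hb hab
  have hval : ∀ {L : Type} [Field L] [Algebra ℂ L] (z : Fin 2 → L),
      MvPolynomial.aeval z (aeval (MvPolynomial.X 0) P * aeval (MvPolynomial.X 1) Q :
        MvPolynomial (Fin 2) ℂ) = aeval (z 0) P * aeval (z 1) Q := by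
    intro L _ _ z
    rw [map_mul, ← Polynomial.aeval_algHom_apply, ← Polynomial.aeval_algHom_apply,
      MvPolynomial.aeval_X, MvPolynomial.aeval_X]
  refine ⟨hk.p6, hk.q6, ?_, ?_⟩
  · intro z hz hst
    rw [hval] at hz
    exact SG.han hk z (left_ne_zero_of_mul hz) (right_ne_zero_of_mul hz) hst
  · intro L _ _ x Bd hess htr halg' hz hst
    rw [hval] at hz
    exact SG.halg hk hess one_pos (by rw [htr]; simp) halg' (left_ne_zero_of_mul hz)
      (right_ne_zero_of_mul hz) hst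

end Pool.Agent.K9h12.NV
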